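import Pool.Agent.H654R5.PT.Stm

/-!
# CND: the condenser on lists
-/

set_option autoImplicit false

namespace Pool.Agent.H654R5.PT.CND

open Pool.Agent.NPC Pool.Agent.H654R5.PT

theorem coeff_toP (l : List Bool) (i : ℕ) :
    (toP l).coeff i = if l.getD i false = true then 1 else 0 := by
  unfold toP
  rw [Polynomial.finsetSum_coeff]
  have h1 : ∀ j ∈ Finset.range l.length,
      (if l.getD j false = true then (Polynomial.X : Polynomial (ZMod 2)) ^ j else 0).coeff i =
        if i = j then (if l.getD i false = true then (1 : ZMod 2) else 0) else 0 := by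
    intro j _
    by_cases h : l.getD j false = true
    · rw [if_pos h, Polynomial.coeff_X_pow]
      by_cases hij : i = j
      · subst hij
        rw [if_pos rfl, if_pos rfl, if_pos h]
      · rw [if_neg hij, if_neg hij]
    · rw [if_neg h, Polynomial.coeff_zero]
      by_cases hij : i = j
      · subst hij
        rw [if_pos rfl, if_neg h]
      · rw [if_neg hij]
  rw [Finset.sum_congr rfl h1, Finset.sum_ite_eq]
  by_cases hi : i ∈ Finset.range l.length
  · rw [if_pos hi]
  · rw [if_neg hi]
    rw [Finset.mem_range, not_lt] at hi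
    rw [List.getD_eq_default _ _ hi]
    simp

theorem toP_inj {l l' : List Bool} (hl : l.length = l'.length) (h : toP l = toP l') : l = l' := by
  apply List.ext_getElem hl
  intro i h1 h2
  have e := congrArg (fun P => Polynomial.coeff P i) h
  simp only [coeff_toP] at e
  rw [List.getD_eq_getElem _ _ h1, List.getD_eq_getElem _ _ h2] at e
  cases hx : l[i] <;> cases hy : l'[i] <;> simp [hx, hy] at e ⊢

theorem deg_toP (l : List Bool) : (toP l).degree < l.length := by
  rw [Polynomial.degree_lt_iff_coeff_zero]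
  intro m hm
  rw [coeff_toP, List.getD_eq_default _ _ hm]
  simp

theorem length_padTo (c : ℕ) (x : List Bool) (h : x.length ≤ c) : (padTo c x).length = c := by
  unfold padTo
  rw [List.length_append, List.length_replicate]
  omega

theorem length_flat (f : ℕ → List Bool) (c : ℕ) (hf : ∀ i, (f i).length = c) (l : List ℕ) :
    (l.flatMap f).length = l.length * c := by
  induction l with
  | nil => simp
  | cons a l ih =>
    rw [List.flatMap_cons, List.length_append, ih, hf, List.length_cons]
    ring

theorem drop_flat (f : ℕ → List Bool) (c : ℕ) (hf : ∀ i, (f i).length = c) (μ j : ℕ)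
    (hj : j < μ) : ∃ t, ((List.range μ).flatMap f).drop (j * c) = f j ++ t := by
  obtain ⟨r, rfl⟩ : ∃ r, μ = j + (r + 1) := ⟨μ - j - 1, by omega⟩
  rw [List.range_add, List.flatMap_append, List.drop_left' (by
    rw [length_flat f c hf, List.length_range]), List.range_succ_eq_map, List.map_cons,
    List.flatMap_cons, add_zero]
  exact ⟨_, rfl⟩

theorem block (μ N c : ℕ) (k x : List Bool) (hM : S_MOD) (hk : k.length ≤ c) (j : ℕ) (hj : j < μ) :
    ((cond μ N c (k ++ [true]) x).drop (j * c)).take k.length =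
      pmod (k ++ [true]) (frob N j x) := by
  unfold cond
  have hf : ∀ i, (padTo c (pmod (k ++ [true]) (frob N i x))).length = c := fun i =>
    length_padTo c _ (by rw [(hM k _).1]; exact hk)
  obtain ⟨t, ht⟩ := drop_flat (fun j => padTo c (pmod (k ++ [true]) (frob N j x))) c hf μ j hj
  rw [ht]
  unfold padTo
  rw [List.append_assoc]
  have hl := (hM k (frob N j x)).1
  exact List.take_left' hl

theorem CND_proof (_hSTR : S_STR) (hMOD : S_MOD) (hIRS : S_IRS) (hDEG : S_DEG) (hCYC : S_CYC)
    (hFRB : S_FRB) (hGUV : S_GUV) : S_CND := by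
  classical
  intro g μ c X hX hc hμ hbig
  obtain ⟨hI1, hI2, hI3⟩ := hIRS c
  have hlen : ∀ h ∈ irrs c, ∀ x, (cond μ (NN g) c h x).length = μ * c := by
    intro h hh x
    obtain ⟨⟨k, rfl⟩, -, h3, -⟩ := hI1 h hh
    unfold cond
    rw [length_flat _ c, List.length_range]
    intro i
    refine length_padTo c _ ?_
    rw [(hMOD k _).1]
    rw [List.length_append, List.length_singleton] at h3
    omega
  refine ⟨hlen, ?_⟩
  have hsum := hDEG c hc
  rcases Nat.eq_zero_or_pos μ with h0 | hpos
  · subst h0
    have hne : irrs c ≠ [] := by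
      intro h
      rw [h] at hsum
      simp at hsum
    obtain ⟨h, hh⟩ := List.exists_mem_of_ne_nil _ hne
    refine ⟨h, hh, ?_⟩
    have hXne : X.Nonempty := Finset.card_pos.1 (by simpa using hμ)
    have := Finset.card_pos.2 (hXne.image (cond 0 (NN g) c h))
    simp only [pow_zero]
    omega
  obtain ⟨X', hX'X, hX'c⟩ := Finset.exists_subset_card_eq hμ
  have hlX : ∀ x ∈ X', x.length = 2 ^ g := fun x hx =>
    (_hSTR.2.2.2.1 _ _).1 (hX (hX'X hx))
  have hinj : Set.InjOn toP (X' : Set (List Bool)) := fun x hx y hy h =>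
    toP_inj ((hlX x hx).trans (hlX y hy).symm) h
  set inv : Polynomial (ZMod 2) → List Bool := Function.invFunOn toP (X' : Set (List Bool)) with hinv
  have hinv' : ∀ x ∈ X', inv (toP x) = x := fun x hx => hinj.leftInvOn_invFunOn hx
  set E : Polynomial (ZMod 2) := Polynomial.cyclotomic (3 ^ (g + 1)) (ZMod 2) with hE
  set H : Finset (Polynomial (ZMod 2)) := (((irrs c).map toP).toFinset).erase E with hH
  have hNN : NN g = 3 ^ (g + 1) := rfl
  have hpow : 2 ^ g ≤ 3 ^ g := Nat.pow_le_pow_left (by norm_num) g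
  have hodd : NN g % 2 = 1 := by
    rw [hNN]
    exact Nat.odd_iff.1 (Odd.pow (by decide))
  have hgN : 2 ^ g ≤ NN g := by
    rw [hNN, pow_succ]
    omega
  have hHmem : ∀ P ∈ H, ∃ k : List Bool, k ++ [true] ∈ irrs c ∧ k.length ≤ c ∧
      toP (k ++ [true]) = P := by
    intro P hP
    rw [hH, Finset.mem_erase, List.mem_toFinset, List.mem_map] at hP
    obtain ⟨-, h, hh, rfl⟩ := hP
    obtain ⟨⟨k, rfl⟩, -, h3, -⟩ := hI1 h hh
    refine ⟨k, hh, ?_, rfl⟩
    rw [List.length_append, List.length_singleton] at h3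
    omega
  have hnd : ((irrs c).map toP).Nodup := by
    refine List.Nodup.map_on ?_ hI2
    intro x hx y hy hxy
    obtain ⟨⟨k, rfl⟩, -, -, -⟩ := hI1 x hx
    obtain ⟨⟨k', rfl⟩, -, -, -⟩ := hI1 y hy
    refine toP_inj ?_ hxy
    have h1 := (hMOD k []).2.2.1
    have h2 := (hMOD k' []).2.2.1
    rw [hxy] at h1
    rw [List.length_append, List.length_append, ← h1, ← h2]
  have hsumH : 2 ^ c ≤ ∑ P ∈ ((irrs c).map toP).toFinset, P.natDegree := by
    rw [List.sum_toFinset _ hnd, List.map_map]
    refine hsum.trans (le_of_eq ?_)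
    congr 1
    apply List.map_congr_left
    intro h hh
    obtain ⟨⟨k, rfl⟩, -, -, -⟩ := hI1 h hh
    rw [Function.comp_apply, (hMOD k []).2.2.1, List.length_append, List.length_singleton]
    omega
  have hsum2 : 2 * μ * NN g ≤ ∑ P ∈ H, P.natDegree := by
    by_cases hEm : E ∈ ((irrs c).map toP).toFinset
    · have h1 := Finset.add_sum_erase _ (fun P : Polynomial (ZMod 2) => P.natDegree) hEm
      have h2 := (hCYC g).2
      rw [← hH] at h1
      rw [← hE] at h2
      omega
    · rw [hH, Finset.erase_eq_of_notMem hEm]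
      omega
  obtain ⟨P, hP, hcard⟩ := hGUV μ (2 ^ g) (NN g) E H (X'.image toP)
    (fun j P => toP (frob (NN g) j (inv P))) (hCYC g).1 (by rw [hH]; exact Finset.notMem_erase _ _)
    (by rw [hE, hNN]; exact Polynomial.cyclotomic.dvd_X_pow_sub_one _ _)
    (by have := (hCYC g).2; rw [← hE] at this; omega)
    (by
      intro P hP
      obtain ⟨x, hx, rfl⟩ := Finset.mem_image.1 hP
      have := deg_toP x
      rw [hlX x hx] at this
      exact_mod_cast this)
    (by rw [Finset.card_image_of_injOn hinj, hX'c])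
    (by
      intro P hP j
      obtain ⟨x, hx, rfl⟩ := Finset.mem_image.1 hP
      rw [hinv' x hx]
      have h1 := hFRB (NN g) j x hodd (by rw [hlX x hx]; exact hgN)
      refine ⟨?_, h1.2⟩
      have := deg_toP (frob (NN g) j x)
      rwa [h1.1] at this)
    (by
      intro P hP
      obtain ⟨k, hk1, -, rfl⟩ := hHmem P hP
      exact ⟨(hMOD k []).2.1, (hI1 _ hk1).2.2.2⟩)
    (by rw [hNN]; exact Nat.one_le_pow _ _ (by norm_num)) hpos hsum2
  obtain ⟨k, hk1, hk2, rfl⟩ := hHmem P hP
  refine ⟨k ++ [true], hk1, hcard.trans ?_⟩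
  refine Nat.mul_le_mul_left 2 ?_
  rw [Finset.image_image]
  set φ : List Bool → (Fin μ → Polynomial (ZMod 2)) :=
    fun L j => toP ((L.drop ((j : ℕ) * c)).take k.length) with hφ
  have h1 : X'.image ((fun P => fun j : Fin μ => toP (frob (NN g) j (inv P)) %ₘ toP (k ++ [true])) ∘ toP)
      = (X'.image (cond μ (NN g) c (k ++ [true]))).image φ := by
    rw [Finset.image_image]
    apply Finset.image_congr
    intro x hx
    funext j
    simp only [Function.comp_apply, hφ]
    rw [hinv' x hx, block μ (NN g) c k x hMOD hk2 j j.2, (hMOD k _).2.2.2]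
  rw [h1]
  exact Finset.card_image_le.trans (Finset.card_le_card (Finset.image_subset_image hX'X))

end Pool.Agent.H654R5.PT.CND
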